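import Mathlib
import Pool.Agent.Helper714.LE.Uniq

set_option autoImplicit false

open Set MeasureTheory Filter Topology Complex InnerProductSpace

namespace Pool.Agent.Results.MP_cebbdc_an.ExtremalConstant

/-- The set `E ⊆ ℝ` seen as a subset of the complex plane. -/
def toC (E : Set ℝ) : Set ℂ := (fun x : ℝ => (x : ℂ)) '' E

/-- `x` is a regular boundary point of `ℂ \ E` for the Dirichlet problem: there is a barrier at `x`,
i.e. a positive harmonic function on the part of `ℂ \ E` in some disc around `x` which tends to `0`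
at `x`. -/
def IsRegularPoint (E : Set ℝ) (x : ℝ) : Prop :=
  ∃ r > 0, ∃ b : ℂ → ℝ,
    (∀ z ∈ Metric.ball (x : ℂ) r, z ∉ toC E → HarmonicAt b z ∧ 0 < b z) ∧
      Tendsto b (𝓝[(toC E)ᶜ] (x : ℂ)) (𝓝 0)

/-- The family `E(N, δ)`: closed sets `E ⊆ ℝ` which meet every interval of length `N` in a set of
Lebesgue measure at least `δ`, all points of which are regular boundary points of `ℂ \ E`. -/
def Family (N δ : ℝ) : Set (Set ℝ) :=
  {E | IsClosed E ∧ (∀ x : ℝ, ENNReal.ofReal δ ≤ volume (E ∩ Icc x (x + N))) ∧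
    ∀ x ∈ E, IsRegularPoint E x}

/-- `U` is the normalised function `U_E`: it is continuous on `ℂ`, zero on `E`, positive and harmonic
on `ℂ \ E`, symmetric with respect to the real axis, and `U(iy)/y → 1` as `y → +∞`. -/
structure IsNormalised (E : Set ℝ) (U : ℂ → ℝ) : Prop where
  continuous : Continuous U
  zero : ∀ x ∈ E, U (x : ℂ) = 0
  pos : ∀ z : ℂ, z ∉ toC E → 0 < U z
  harmonic : ∀ z : ℂ, z ∉ toC E → HarmonicAt U z
  symm : ∀ z : ℂ, U ((starRingEnd ℂ) z) = U z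
  limit : Tendsto (fun y : ℝ => U ((y : ℂ) * I) / y) atTop (𝓝 1)

/-- All values `U_E(x)`, `x ∈ ℝ`, `E ∈ E(N, δ)`. -/
def Values (N δ : ℝ) : Set ℝ :=
  {c | ∃ E ∈ Family N δ, ∃ U : ℂ → ℝ, IsNormalised E U ∧ ∃ x : ℝ, U (x : ℂ) = c}

/-- The constant `C(N, δ) = sup_E sup_x U_E(x)`. -/
noncomputable def C (N δ : ℝ) : ℝ := sSup (Values N δ)

/-- The translated periodic set `Ẽ + c = ⋃ₙ [n + c - δ/2, n + c + δ/2]`. -/
def Etilde (δ c : ℝ) : Set ℝ := {t | ∃ n : ℤ, t ∈ Icc (n + c - δ / 2) (n + c + δ / 2)}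

/-- The function `U_E` itself is a barrier at every point of `E`: the regularity condition in
`Family` holds automatically for every set `E` for which a normalised function exists. -/
theorem IsNormalised.isRegularPoint {E : Set ℝ} {U : ℂ → ℝ} (hU : IsNormalised E U) :
    ∀ x ∈ E, IsRegularPoint E x := by
  intro x hx
  refine ⟨1, one_pos, U, fun z _ hz => ⟨hU.harmonic z hz, hU.pos z hz⟩, ?_⟩
  have := (hU.continuous.tendsto (x : ℂ)).mono_left (nhdsWithin_le_nhds (s := (toC E)ᶜ))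
  rwa [hU.zero x hx] at this

theorem Etilde_eq (δ c : ℝ) : Etilde δ c = LE.Et δ c := by
  ext t
  simp only [Etilde, LE.Et, mem_ofPred_eq, mem_Icc]
  constructor
  · rintro ⟨n, h1, h2⟩
    refine ⟨n, ?_⟩
    rw [abs_le]
    constructor <;> linarith
  · rintro ⟨n, hn⟩
    rw [abs_le] at hn
    refine ⟨n, ?_, ?_⟩ <;> linarith [hn.1, hn.2]

theorem isNormalised_UT {δ : ℝ} (h0 : 0 < δ) (h1 : δ < 1) :
    IsNormalised (Etilde δ 0) (LE.UT δ) := by
  rw [Etilde_eq]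
  exact ⟨LE.UT_continuous h0 h1, LE.UT_zero h0 h1, LE.UT_pos h0 h1, LE.UT_harmonic h0 h1,
    LE.UT_conj δ, LE.UT_lim h0 h1⟩

theorem Etilde_mem {δ : ℝ} (h0 : 0 < δ) (h1 : δ < 1) : Etilde δ 0 ∈ Family 1 δ := by
  have hU := isNormalised_UT h0 h1
  refine ⟨?_, ?_, ?_⟩
  · rw [Etilde_eq]; exact LE.Et_isClosed δ 0
  · intro x
    rw [Etilde_eq]; exact LE.Et_volume h0 h1 0 x
  · exact hU.isRegularPoint

theorem cmp {E : Set ℝ} {U : ℂ → ℝ} {δ : ℝ} (h0 : 0 < δ) (h1 : δ < 1) (hE : E ∈ Family 1 δ)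
    (hU : IsNormalised E U) : ∃ M C' : ℝ, LE.CmpHyp U (LE.VT δ) (1 - δ) M C' :=
  LE.cmpHyp hE.1 h0 h1 hE.2.1 hU.continuous hU.zero hU.pos hU.harmonic hU.symm hU.limit

theorem VT_zero {δ : ℝ} (h0 : 0 < δ) (h1 : δ < 1) :
    LE.VT δ 0 = 1 / Real.pi * Real.log (Real.cot (Real.pi * δ / 4)) := by
  unfold LE.VT
  rw [add_zero]
  exact LE.UT_half h0 h1

/-- upper bound -/
theorem upper {δ : ℝ} (h0 : 0 < δ) (h1 : δ < 1) {E : Set ℝ} (hE : E ∈ Family 1 δ) {U : ℂ → ℝ}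
    (hU : IsNormalised E U) (x : ℝ) :
    U (x : ℂ) ≤ 1 / Real.pi * Real.log (Real.cot (Real.pi * δ / 4)) := by
  obtain ⟨M, C', H⟩ := cmp h0 h1 hE hU
  rw [← VT_zero h0 h1]
  exact LE.U_le H x

theorem VT_pos {δ : ℝ} (h0 : 0 < δ) (h1 : δ < 1) : 0 < LE.VT δ 0 := by
  have hU := isNormalised_UT h0 h1
  unfold LE.VT
  apply hU.pos
  rintro ⟨t, ht, ht2⟩
  have h3 : t = 1 / 2 + 0 := by
    have h4 : (t : ℂ) = 1 / 2 + 0 := ht2
    have h5 : (t : ℂ) = ((1 / 2 + 0 : ℝ) : ℂ) := by rw [h4]; push_cast; ring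
    exact_mod_cast h5
  rw [Etilde_eq, h3] at ht
  refine LE.not_mem_Et (δ := δ) (s := 0) ?_ ht
  simp only [abs_zero]
  linarith

/-- uniqueness -/
theorem unique {δ : ℝ} (h0 : 0 < δ) (h1 : δ < 1) {E : Set ℝ} (hE : E ∈ Family 1 δ) {U : ℂ → ℝ}
    (hU : IsNormalised E U) (x : ℝ)
    (hx : U (x : ℂ) = 1 / Real.pi * Real.log (Real.cot (Real.pi * δ / 4))) :
    E = Etilde δ (x - 1 / 2) := by
  obtain ⟨M, C', H⟩ := cmp h0 h1 hE hU
  rw [← VT_zero h0 h1] at hx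
  have hrig := LE.rigidity H hx (by rw [hx]; exact VT_pos h0 h1)
  have hUT := isNormalised_UT h0 h1
  -- zero sets
  have hE0 : ∀ t : ℝ, t ∈ E ↔ U (t : ℂ) = 0 := by
    intro t
    constructor
    · exact hU.zero t
    · intro ht
      by_contra hne
      have : (t : ℂ) ∉ toC E := by
        rintro ⟨s, hs, hs2⟩
        have : s = t := by
          have h4 : (s : ℂ) = t := hs2
          exact_mod_cast h4
        exact hne (this ▸ hs)
      have := hU.pos _ this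
      rw [ht] at this
      exact lt_irrefl _ this
  have hT0 : ∀ t : ℝ, t ∈ LE.Et δ 0 ↔ LE.UT δ (t : ℂ) = 0 := by
    intro t
    constructor
    · exact LE.UT_zero h0 h1 t
    · intro ht
      by_contra hne
      have : (t : ℂ) ∉ (fun x : ℝ => (x : ℂ)) '' LE.Et δ 0 := by
        rintro ⟨s, hs, hs2⟩
        have : s = t := by
          have h4 : (s : ℂ) = t := hs2
          exact_mod_cast h4
        exact hne (this ▸ hs)
      have := LE.UT_pos h0 h1 _ this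
      rw [ht] at this
      exact lt_irrefl _ this
  rw [Etilde_eq]
  ext t
  rw [hE0]
  have h2 := hrig ((t - x : ℝ) : ℂ)
  have h3 : (x : ℂ) + ((t - x : ℝ) : ℂ) = (t : ℂ) := by push_cast; ring
  rw [h3] at h2
  unfold LE.VT at h2
  have h4 : (1 / 2 + ((t - x : ℝ) : ℂ)) = ((1 / 2 + (t - x) : ℝ) : ℂ) := by push_cast; ring
  rw [h4] at h2
  rw [h2, ← hT0]
  simp only [LE.Et, mem_ofPred_eq]
  constructor
  · rintro ⟨n, hn⟩
    exact ⟨n, by rwa [show t - (x - 1 / 2) - (n : ℝ) = 1 / 2 + (t - x) - 0 - n by ring]⟩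
  · rintro ⟨n, hn⟩
    exact ⟨n, by rwa [show 1 / 2 + (t - x) - 0 - (n : ℝ) = t - (x - 1 / 2) - n by ring]⟩

/-- **Main theorem.** For `0 < δ < 1`, `C(1, δ) = (1/π) ln cot(πδ/4)`; this value is the largest
element of the set of all values `U_E(x)`; it is attained for the periodic set `Ẽ` (at `x = 1/2`),
and it is attained only for translates of `Ẽ`. -/
theorem result (δ : ℝ) (h0 : 0 < δ) (h1 : δ < 1) :
    C 1 δ = 1 / Real.pi * Real.log (Real.cot (Real.pi * δ / 4)) ∧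
    IsGreatest (Values 1 δ) (C 1 δ) ∧
    (Etilde δ 0 ∈ Family 1 δ ∧ ∃ U : ℂ → ℝ, IsNormalised (Etilde δ 0) U ∧
      U (1 / 2) = C 1 δ ∧ ∀ x : ℝ, U (x : ℂ) ≤ C 1 δ) ∧
    (∀ E ∈ Family 1 δ, ∀ U : ℂ → ℝ, IsNormalised E U → ∀ x : ℝ, U (x : ℂ) = C 1 δ →
      E = Etilde δ (x - 1 / 2)) := by
  have hG : IsGreatest (Values 1 δ) (1 / Real.pi * Real.log (Real.cot (Real.pi * δ / 4))) := by
    constructor
    · refine ⟨Etilde δ 0, Etilde_mem h0 h1, LE.UT δ, isNormalised_UT h0 h1, 1 / 2, ?_⟩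
      rw [← LE.UT_half h0 h1]
      push_cast
      rfl
    · rintro c ⟨E, hE, U, hU, x, rfl⟩
      exact upper h0 h1 hE hU x
  have hC : C 1 δ = 1 / Real.pi * Real.log (Real.cot (Real.pi * δ / 4)) := hG.csSup_eq
  rw [hC]
  refine ⟨rfl, hG, ⟨Etilde_mem h0 h1, LE.UT δ, isNormalised_UT h0 h1, LE.UT_half h0 h1,
    fun x => upper h0 h1 (Etilde_mem h0 h1) (isNormalised_UT h0 h1) x⟩, ?_⟩
  intro E hE U hU x hx
  exact unique h0 h1 hE hU x hx

end Pool.Agent.Results.MP_cebbdc_an.ExtremalConstant
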